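import Mathlib
import Pool.Agent.H96MB.Defs
import Pool.Agent.H93RF.RF

set_option autoImplicit false

namespace Pool.Agent.H41Sep
open Pool.Agent.H96MB Filter

/-- `S + n! T` -/
def Kn {T : Type*} [AddCommGroup T] (S : AddSubgroup T) (n : ℕ) : AddSubgroup T :=
  S ⊔ (nsmulAddMonoidHom (n.factorial) : T →+ T).range

lemma le_Kn {T : Type*} [AddCommGroup T] (S : AddSubgroup T) (n : ℕ) : S ≤ Kn S n := le_sup_left

lemma Kn_fi {T : Type*} [AddCommGroup T] [AddGroup.FG T] (S : AddSubgroup T) (n : ℕ) :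
    (Kn S n).FiniteIndex := by
  haveI h1 : AddGroup.FG (T ⧸ Kn S n) := QuotientAddGroup.fg _
  haveI h2 : Module.Finite ℤ (T ⧸ Kn S n) := Module.Finite.iff_addGroup_fg.2 h1
  have h3 : AddMonoid.IsTorsion (T ⧸ Kn S n) := by
    intro x
    obtain ⟨t, rfl⟩ := QuotientAddGroup.mk_surjective x
    rw [isOfFinAddOrder_iff_nsmul_eq_zero]
    refine ⟨n.factorial, Nat.factorial_pos n, ?_⟩
    rw [← QuotientAddGroup.mk_nsmul, QuotientAddGroup.eq_zero_iff]
    exact AddSubgroup.mem_sup_right ⟨t, rfl⟩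
  haveI : Finite (T ⧸ Kn S n) := AddCommGroup.finite_of_fg_torsion _ h3
  exact AddSubgroup.finiteIndex_of_finite_quotient

lemma Kn_sep {T : Type*} [AddCommGroup T] [AddGroup.FG T] (S : AddSubgroup T) (x : T)
    (hx : x ∉ S) : ∀ᶠ n in (atTop : Filter ℕ), x ∉ Kn S n := by
  haveI : Group.FG (Multiplicative T) := inferInstance
  obtain ⟨K, -, hK1, hK2, hK3⟩ := Pool.Agent.H93RF.rf (G := Multiplicative T)
    (fun a b c => by simp [mul_comm]) (AddSubgroup.toSubgroup S) (Multiplicative.ofAdd x) hx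
  have hi : K.index ≠ 0 := hK1.index_ne_zero
  filter_upwards [eventually_ge_atTop K.index] with n hn hxn
  apply hK3
  have hdvd : K.index ∣ n.factorial := Nat.dvd_factorial (Nat.pos_of_ne_zero hi) hn
  have hle : Kn S n ≤ AddSubgroup.toSubgroup.symm K := by
    refine sup_le ?_ ?_
    · intro y hy
      exact hK2 hy
    · rintro _ ⟨t, rfl⟩
      obtain ⟨k, hk⟩ := hdvd
      have := K.pow_index_mem (Multiplicative.ofAdd t)
      have h2 := K.pow_mem this k
      rw [← pow_mul, ← hk] at h2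
      exact h2
  exact hle hxn

section star

variable {T ι : Type*} [AddCommGroup T]

/-- the ultrafilter -/
noncomputable def U : Ultrafilter ℕ := Filter.hyperfilter ℕ

lemma U_le : (U : Filter ℕ) ≤ atTop := Nat.hyperfilter_le_atTop

/-- sequences which lie in `S + n! T` eventually -/
def N (S : AddSubgroup T) : AddSubgroup (ℕ → T) where
  carrier := {f | ∀ᶠ n in (U : Filter ℕ), f n ∈ Kn S n}
  zero_mem' := Eventually.of_forall fun n => (Kn S n).zero_mem
  add_mem' := by
    intro f g hf hg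
    filter_upwards [hf, hg] with n h1 h2
    exact (Kn S n).add_mem h1 h2
  neg_mem' := by
    intro f hf
    filter_upwards [hf] with n h1
    exact (Kn S n).neg_mem h1

lemma mem_N {S : AddSubgroup T} {f : ℕ → T} :
    f ∈ N S ↔ ∀ᶠ n in (U : Filter ℕ), f n ∈ Kn S n := Iff.rfl

/-- the ultraproduct -/
abbrev Ts (S : AddSubgroup T) := (ℕ → T) ⧸ N S

/-- the equivariant retraction -/
lemma exists_retract [AddGroup.FG T] (S : AddSubgroup T) : ∃ r : Ts S → T ⧸ S,
    r 0 = 0 ∧ ∀ (a : T) (x : Ts S),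
      r (QuotientAddGroup.mk (fun _ : ℕ => a) + x) = QuotientAddGroup.mk a + r x := by
  classical
  let φ : T →+ Ts S :=
    { toFun := fun a => QuotientAddGroup.mk (fun _ : ℕ => a)
      map_zero' := rfl
      map_add' := fun a b => rfl }
  have hker : ∀ a, φ a = 0 → a ∈ S := by
    intro a ha
    by_contra hS
    have h1 : (fun _ : ℕ => a) ∈ N S := (QuotientAddGroup.eq_zero_iff _).1 ha
    have h2 := (Kn_sep S a hS).filter_mono U_le
    obtain ⟨n, hn1, hn2⟩ := (h2.and (mem_N.1 h1)).exists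
    exact hn1 hn2
  let q : Ts S → Ts S := fun x => Quotient.out (QuotientAddGroup.mk x : Ts S ⧸ φ.range)
  have hq : ∀ x, ∃ t : T, φ t = x - q x := by
    intro x
    have h1 : (QuotientAddGroup.mk (q x) : Ts S ⧸ φ.range) = QuotientAddGroup.mk x :=
      Quotient.out_eq _
    rw [QuotientAddGroup.eq] at h1
    obtain ⟨t, ht⟩ := h1
    exact ⟨t, by rw [ht]; abel⟩
  choose t ht using hq
  have hqa : ∀ a x, q (φ a + x) = q x := by
    intro a x
    have : (QuotientAddGroup.mk (φ a + x) : Ts S ⧸ φ.range) = QuotientAddGroup.mk x := by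
      rw [QuotientAddGroup.eq]
      exact ⟨-a, by rw [map_neg]; abel⟩
    simp only [q, this]
  have hr : ∀ a x, (QuotientAddGroup.mk (t (φ a + x)) : T ⧸ S) =
      QuotientAddGroup.mk a + QuotientAddGroup.mk (t x) := by
    intro a x
    rw [← QuotientAddGroup.mk_add, QuotientAddGroup.eq]
    apply hker
    rw [map_add, map_neg, map_add, ht, ht, hqa]
    abel
  refine ⟨fun x => QuotientAddGroup.mk (t x) - QuotientAddGroup.mk (t 0), by simp, ?_⟩
  intro a x
  have := hr a x
  change (QuotientAddGroup.mk (t (φ a + x)) : T ⧸ S) - _ = _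
  rw [this]
  abel

/-- the coefficients in the finite quotients are those in the ultraproduct -/
lemma coef_eventually (S : AddSubgroup T) (u : T × ι →₀ ℤ) (s f : ℕ → T) (i : ι) :
    ∀ᶠ n in (U : Filter ℕ), push (Kn S n) (shift (s n) u) (QuotientAddGroup.mk (f n), i) =
      Finsupp.mapDomain (fun p : T × ι =>
        ((QuotientAddGroup.mk (fun n => s n + p.1) : Ts S), p.2)) u
        (QuotientAddGroup.mk f, i) := by
  classical
  induction u using Finsupp.induction_linear with
  | zero => simp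
  | add u v hu hv =>
    filter_upwards [hu, hv] with n h1 h2
    rw [map_add, map_add, Finsupp.add_apply, h1, h2, Finsupp.mapDomain_add, Finsupp.add_apply]
  | single p c =>
    have key : ∀ᶠ n in (U : Filter ℕ), ((QuotientAddGroup.mk (s n + p.1) : T ⧸ Kn S n) =
        QuotientAddGroup.mk (f n) ↔
        (QuotientAddGroup.mk (fun n => s n + p.1) : Ts S) = QuotientAddGroup.mk f) := by
      by_cases h : (QuotientAddGroup.mk (fun n => s n + p.1) : Ts S) = QuotientAddGroup.mk f
      · have h1 := h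
        rw [QuotientAddGroup.eq] at h1
        filter_upwards [mem_N.1 h1] with n hn
        refine iff_of_true ?_ h
        rw [QuotientAddGroup.eq]
        exact hn
      · have h1 := h
        rw [QuotientAddGroup.eq, mem_N, ← Ultrafilter.eventually_not] at h1
        filter_upwards [h1] with n hn
        refine iff_of_false ?_ h
        rw [QuotientAddGroup.eq]
        exact hn
    filter_upwards [key] with n hn
    simp only [push, shift, Finsupp.mapDomain.addMonoidHom_apply, Finsupp.mapDomain_single,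
      Finsupp.single_apply, Prod.mk.injEq]
    simp only [hn]

/-- the pushforward to the ultraproduct -/
noncomputable def star (S : AddSubgroup T) (s : ℕ → T) (u : T × ι →₀ ℤ) : Ts S × ι →₀ ℤ :=
  Finsupp.mapDomain (fun p : T × ι =>
        ((QuotientAddGroup.mk (fun n => s n + p.1) : Ts S), p.2)) u

/-- the retraction -/
noncomputable def R (S : AddSubgroup T) (r : Ts S → T ⧸ S) :
    (Ts S × ι →₀ ℤ) →+ ((T ⧸ S) × ι →₀ ℤ) :=
  Finsupp.mapDomain.addMonoidHom (fun p : Ts S × ι => (r p.1, p.2))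

lemma R_star (S : AddSubgroup T) (r : Ts S → T ⧸ S)
    (hr : ∀ (a : T) (x : Ts S),
      r (QuotientAddGroup.mk (fun _ : ℕ => a) + x) = QuotientAddGroup.mk a + r x)
    (s : ℕ → T) (t : T) (ht : (QuotientAddGroup.mk t : T ⧸ S) = r (QuotientAddGroup.mk s))
    (u : T × ι →₀ ℤ) : R S r (star S s u) = push S (shift t u) := by
  simp only [R, star, push, shift, Finsupp.mapDomain.addMonoidHom_apply]
  rw [← Finsupp.mapDomain_comp, ← Finsupp.mapDomain_comp]
  congr 1
  funext p
  simp only [Function.comp_apply, Prod.mk.injEq, and_true]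
  have h1 : (QuotientAddGroup.mk (fun n => s n + p.1) : Ts S) =
      QuotientAddGroup.mk (fun _ : ℕ => p.1) + QuotientAddGroup.mk s := by
    rw [← QuotientAddGroup.mk_add]
    congr 1
    funext n
    simp [add_comm]
  rw [h1, hr, ← ht, QuotientAddGroup.mk_add, add_comm]

lemma list_step (S : AddSubgroup T) (r : Ts S → T ⧸ S)
    (hr : ∀ (a : T) (x : Ts S),
      r (QuotientAddGroup.mk (fun _ : ℕ => a) + x) = QuotientAddGroup.mk a + r x)
    (us : List (T × ι →₀ ℤ)) : ∀ c : ℕ → (T × ι →₀ ℤ), (∀ n, c n ∈ comb us) →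
    ∃ (cs : Ts S × ι →₀ ℤ) (d : T × ι →₀ ℤ), d ∈ comb us ∧ R S r cs = push S d ∧
      ∀ (f : ℕ → T) (i : ι), ∀ᶠ n in (U : Filter ℕ),
        push (Kn S n) (c n) (QuotientAddGroup.mk (f n), i) = cs (QuotientAddGroup.mk f, i) := by
  induction us with
  | nil =>
    intro c hc
    refine ⟨0, 0, rfl, by simp, fun f i => Eventually.of_forall fun n => ?_⟩
    have : c n = 0 := hc n
    rw [this]
    simp
  | cons u us ih =>
    intro c hc
    choose s z hz hsz using hc
    obtain ⟨zs, d, hd, hR, hev⟩ := ih z hz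
    obtain ⟨t, ht⟩ := QuotientAddGroup.mk_surjective (r (QuotientAddGroup.mk s))
    refine ⟨star S s u + zs, shift t u + d, ⟨t, d, hd, rfl⟩, ?_, ?_⟩
    · rw [map_add, map_add, R_star S r hr s t ht, hR]
    · intro f i
      filter_upwards [hev f i, coef_eventually S u s f i] with n h1 h2
      rw [hsz n, map_add, Finsupp.add_apply, h1, h2]
      rfl

end star

/-- **Separation.** -/
theorem separation {T ι : Type*} [AddCommGroup T] [AddGroup.FG T] (S : AddSubgroup T)
    (us : List (T × ι →₀ ℤ)) (v : T × ι →₀ ℤ)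
    (h : ∀ K : AddSubgroup T, S ≤ K → K.FiniteIndex → ∀ m : ℕ, 0 < m →
      ∃ c ∈ comb us, ∀ q, (m : ℤ) ∣ push K (v - c) q) :
    ∃ c ∈ comb us, push S (v - c) = 0 := by
  classical
  have h0 : ∀ n : ℕ, ∃ c ∈ comb us, ∀ q, ((n.factorial : ℕ) : ℤ) ∣ push (Kn S n) (v - c) q :=
    fun n => h (Kn S n) (le_Kn S n) (Kn_fi S n) _ (Nat.factorial_pos n)
  choose c hc hdiv using h0
  obtain ⟨r, hr0, hr⟩ := exists_retract S
  obtain ⟨cs, d, hd, hR, hev⟩ := list_step S r hr us c hc
  have hz : (QuotientAddGroup.mk (0 : T) : T ⧸ S) = r (QuotientAddGroup.mk (0 : ℕ → T)) := by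
    have : (QuotientAddGroup.mk (0 : ℕ → T) : Ts S) = 0 := rfl
    rw [this, hr0]
    rfl
  have hv := R_star S r hr (0 : ℕ → T) 0 hz v
  have hE : star S (0 : ℕ → T) v - cs = 0 := by
    ext ⟨y, i⟩
    obtain ⟨f, rfl⟩ := QuotientAddGroup.mk_surjective y
    rw [Finsupp.sub_apply, Finsupp.zero_apply]
    set e : ℤ := star S (0 : ℕ → T) v (QuotientAddGroup.mk f, i) - cs (QuotientAddGroup.mk f, i)
      with he
    have h1 := coef_eventually S v (0 : ℕ → T) f i
    have h2 : ∀ᶠ n in (U : Filter ℕ), e.natAbs < n :=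
      (eventually_gt_atTop e.natAbs).filter_mono U_le
    obtain ⟨n, hn1, hn2, hn3⟩ := (h1.and ((hev f i).and h2)).exists
    have hs : shift (T := T) (ι := ι) ((0 : ℕ → T) n) v = v := by
      simp only [shift, Finsupp.mapDomain.addMonoidHom_apply, Pi.zero_apply, zero_add]
      exact Finsupp.mapDomain_id
    rw [hs] at hn1
    have h4 := hdiv n (QuotientAddGroup.mk (f n), i)
    rw [map_sub, Finsupp.sub_apply, hn1, hn2] at h4
    have h5 : ((n.factorial : ℕ) : ℤ) ∣ e := h4
    refine Int.eq_zero_of_abs_lt_dvd h5 ?_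
    have h6 : n ≤ n.factorial := Nat.self_le_factorial n
    have h7 : (e.natAbs : ℤ) < n.factorial := by exact_mod_cast lt_of_lt_of_le hn3 h6
    rwa [Int.natCast_natAbs] at h7
  refine ⟨d, hd, ?_⟩
  have hfin : R S r (star S (0 : ℕ → T) v - cs) = 0 := by rw [hE, map_zero]
  rw [map_sub, hR, hv] at hfin
  have hs : shift (T := T) (ι := ι) (0 : T) v = v := by
    simp only [shift, Finsupp.mapDomain.addMonoidHom_apply, zero_add]
    exact Finsupp.mapDomain_id
  rw [hs] at hfin
  rw [map_sub]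
  exact hfin

end Pool.Agent.H41Sep
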