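import Mathlib
import Pool.Agent.H96MB.Defs
import Pool.Agent.H41Sep.Sep

set_option autoImplicit false

namespace Pool.Agent.H41Sep
open Pool.Agent.H96MB Pool.Agent.H18PC

section

variable {T ι : Type*} [AddCommGroup T]

lemma shift_zero' (u : T × ι →₀ ℤ) : shift (0 : T) u = u := by
  simp only [shift, Finsupp.mapDomain.addMonoidHom_apply, zero_add]
  exact Finsupp.mapDomain_id

lemma shift_shift (s t : T) (u : T × ι →₀ ℤ) : shift s (shift t u) = shift (s + t) u := by
  simp only [shift, Finsupp.mapDomain.addMonoidHom_apply]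
  rw [← Finsupp.mapDomain_comp]
  congr 1
  funext p
  simp [add_assoc]

lemma push_shift_mem (K : AddSubgroup T) {s : T} (hs : s ∈ K) (u : T × ι →₀ ℤ) :
    push K (shift s u) = push K u := by
  simp only [shift, push, Finsupp.mapDomain.addMonoidHom_apply]
  rw [← Finsupp.mapDomain_comp]
  congr 1
  funext p
  simp only [Function.comp_apply, Prod.mk.injEq, and_true]
  rw [QuotientAddGroup.eq]
  have : -(s + p.1) + p.1 = -s := by abel
  rw [this]
  exact K.neg_mem hs

lemma push_shift_dvd (K : AddSubgroup T) (s : T) (u : T × ι →₀ ℤ) (m : ℤ)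
    (h : ∀ q, m ∣ push K u q) : ∀ q, m ∣ push K (shift s u) q := by
  intro q
  have h1 : push K (shift s u) = Finsupp.mapDomain
      (fun q : (T ⧸ K) × ι => ((QuotientAddGroup.mk s : T ⧸ K) + q.1, q.2)) (push K u) := by
    simp only [shift, push, Finsupp.mapDomain.addMonoidHom_apply]
    rw [← Finsupp.mapDomain_comp, ← Finsupp.mapDomain_comp]
    rfl
  have hinj : Function.Injective
      (fun q : (T ⧸ K) × ι => ((QuotientAddGroup.mk s : T ⧸ K) + q.1, q.2)) := by
    intro a b hab
    simp only [Prod.mk.injEq, add_right_inj] at hab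
    exact Prod.ext hab.1 hab.2
  have h2 : q = (fun q : (T ⧸ K) × ι => ((QuotientAddGroup.mk s : T ⧸ K) + q.1, q.2))
      (-(QuotientAddGroup.mk s : T ⧸ K) + q.1, q.2) := by
    simp
  rw [h1, h2, Finsupp.mapDomain_apply hinj]
  exact h _

noncomputable instance : Mul (W T ι) := ⟨fun a b => ⟨a.t + b.t, a.m + shift a.t b.m⟩⟩
noncomputable instance : One (W T ι) := ⟨⟨0, 0⟩⟩
noncomputable instance : Inv (W T ι) := ⟨fun a => ⟨-a.t, -shift (-a.t) a.m⟩⟩

lemma mul_t (a b : W T ι) : (a * b).t = a.t + b.t := rfl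
lemma mul_m (a b : W T ι) : (a * b).m = a.m + shift a.t b.m := rfl
lemma one_t : (1 : W T ι).t = 0 := rfl
lemma one_m : (1 : W T ι).m = 0 := rfl
lemma inv_t (a : W T ι) : (a⁻¹).t = -a.t := rfl
lemma inv_m (a : W T ι) : (a⁻¹).m = -shift (-a.t) a.m := rfl

noncomputable instance : Group (W T ι) := Group.ofLeftAxioms
  (by
    intro a b c
    refine W.ext ?_ ?_
    · simp only [mul_t, add_assoc]
    · simp only [mul_t, mul_m, map_add, shift_shift, add_assoc])
  (by
    intro a
    refine W.ext ?_ ?_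
    · simp only [mul_t, one_t, zero_add]
    · simp only [mul_m, one_m, one_t, zero_add, shift_zero'])
  (by
    intro a
    refine W.ext ?_ ?_
    · simp only [mul_t, inv_t, one_t, neg_add_cancel]
    · simp only [mul_m, inv_m, inv_t, one_m, neg_add_cancel])

lemma conj_t (g a : W T ι) : (g * a * g⁻¹).t = a.t := by
  simp only [mul_t, inv_t]
  abel

lemma conj_m (g a : W T ι) : (g * a * g⁻¹).m = shift g.t a.m + (g.m - shift a.t g.m) := by
  simp only [mul_t, mul_m, inv_m, map_neg, shift_shift]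
  have : g.t + a.t + -g.t = a.t := by abel
  rw [this]
  abel

/-- one half of the description of a product of conjugacy classes -/
lemma conjProd_sub (K : AddSubgroup T) (as : List (W T ι)) : (∀ a ∈ as, a.t ∈ K) →
    ∀ x ∈ conjProd as, x.t = (as.map W.t).sum ∧ ∃ c ∈ comb (as.map W.m), push K (x.m - c) = 0 := by
  induction as with
  | nil =>
    intro _ x hx
    have : x = 1 := hx
    rw [this]
    exact ⟨rfl, 0, rfl, by simp [one_m]⟩
  | cons a as ih =>
    intro hK x hx
    obtain ⟨g, z, hz, rfl⟩ := hx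
    obtain ⟨h1, c, hc, h2⟩ := ih (fun b hb => hK b (List.mem_cons_of_mem _ hb)) z hz
    have ha : a.t ∈ K := hK a List.mem_cons_self
    refine ⟨?_, shift g.t a.m + c, ⟨g.t, c, hc, rfl⟩, ?_⟩
    · rw [mul_t, conj_t, h1]
      simp
    · rw [mul_m, conj_m, conj_t]
      have : shift g.t a.m + (g.m - shift a.t g.m) + shift a.t z.m - (shift g.t a.m + c) =
          (g.m - shift a.t g.m) + (shift a.t z.m - z.m) + (z.m - c) := by abel
      rw [this, map_add, map_add, h2, map_sub, map_sub, push_shift_mem K ha,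
        push_shift_mem K ha]
      simp

/-- the augmentation submodule of a list -/
noncomputable def Jl (ι : Type*) : List T → AddSubgroup (T × ι →₀ ℤ)
  | [] => ⊥
  | a :: as => (AddMonoidHom.id _ - shift a : (T × ι →₀ ℤ) →+ (T × ι →₀ ℤ)).range ⊔ Jl ι as

lemma Jl_shift (s : T) (l : List T) : ∀ u ∈ Jl ι l, shift s u ∈ Jl ι l := by
  induction l with
  | nil =>
    intro u hu
    have : u = 0 := hu
    rw [this, map_zero]
    exact AddSubgroup.zero_mem _
  | cons a as ih =>
    intro u hu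
    obtain ⟨y, ⟨n, rfl⟩, z, hz, rfl⟩ := AddSubgroup.mem_sup.1 hu
    rw [map_add]
    refine AddSubgroup.add_mem_sup ⟨shift s n, ?_⟩ (ih z hz)
    simp only [AddMonoidHom.sub_apply, AddMonoidHom.id_apply, map_sub, shift_shift, add_comm]

/-- the other half -/
lemma sub_conjProd (as : List (W T ι)) : ∀ x : W T ι, x.t = (as.map W.t).sum →
    ∀ c ∈ comb (as.map W.m), x.m - c ∈ Jl ι (as.map W.t) → x ∈ conjProd as := by
  induction as with
  | nil =>
    intro x hx c hc hJ
    have h1 : c = 0 := hc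
    rw [h1] at hJ
    have h2 : x.m - 0 = 0 := hJ
    change x = 1
    refine W.ext ?_ ?_
    · rw [hx]; rfl
    · rw [sub_zero] at h2
      rw [h2]; rfl
  | cons a as ih =>
    intro x hx c hc hJ
    obtain ⟨s, c', hc', rfl⟩ := hc
    obtain ⟨y, ⟨n, rfl⟩, j, hj, hyz⟩ := AddSubgroup.mem_sup.1 hJ
    simp only [AddMonoidHom.sub_apply, AddMonoidHom.id_apply] at hyz
    have hxm : x.m = shift s a.m + c' + (n - shift a.t n + j) := by
      rw [hyz]; abel
    refine ⟨⟨s, n + c'⟩, ⟨(as.map W.t).sum, c' + shift (-a.t) j⟩, ?_, ?_⟩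
    · refine ih _ rfl c' hc' ?_
      have : c' + shift (-a.t) j - c' = shift (-a.t) j := by abel
      change c' + shift (-a.t) j - c' ∈ _
      rw [this]
      exact Jl_shift _ _ _ hj
    · refine W.ext ?_ ?_
      · rw [mul_t, conj_t, hx]
        simp
      · rw [mul_m, conj_m, conj_t, hxm]
        simp only [map_add, shift_shift, add_neg_cancel, shift_zero']
        abel

lemma Jl_stab (l : List T) (s : T) (hs : s ∈ AddSubgroup.closure {s | s ∈ l}) :
    ∀ u : T × ι →₀ ℤ, shift s u - u ∈ Jl ι l := by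
  induction hs using AddSubgroup.closure_induction with
  | mem a ha =>
    intro u
    have ha' : a ∈ l := ha
    clear ha
    induction l with
    | nil => simp at ha'
    | cons b l ih =>
      rcases List.mem_cons.1 ha' with h | h
      · subst h
        refine AddSubgroup.mem_sup_left ⟨-u, ?_⟩
        simp only [AddMonoidHom.sub_apply, AddMonoidHom.id_apply, map_neg]
        abel
      · exact AddSubgroup.mem_sup_right (ih h)
  | zero =>
    intro u
    rw [shift_zero', sub_self]
    exact AddSubgroup.zero_mem _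
  | add a b _ _ ha hb =>
    intro u
    have : shift (a + b) u - u = (shift a (shift b u) - shift b u) + (shift b u - u) := by
      rw [shift_shift]; abel
    rw [this]
    exact AddSubgroup.add_mem _ (ha _) (hb _)
  | neg a _ ha =>
    intro u
    have h1 := ha (shift (-a) u)
    rw [shift_shift, add_neg_cancel, shift_zero'] at h1
    have : shift (-a) u - u = -(u - shift (-a) u) := by abel
    rw [this]
    exact AddSubgroup.neg_mem _ h1

lemma mem_Jl (l : List T) (u : T × ι →₀ ℤ)
    (h : push (AddSubgroup.closure {s | s ∈ l}) u = 0) : u ∈ Jl ι l := by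
  classical
  set S := AddSubgroup.closure {s | s ∈ l} with hS
  let sec : ((T ⧸ S) × ι →₀ ℤ) →+ (T × ι →₀ ℤ) :=
    Finsupp.mapDomain.addMonoidHom (fun q : (T ⧸ S) × ι => (Quotient.out q.1, q.2))
  have key : ∀ u : T × ι →₀ ℤ, u - sec (push S u) ∈ Jl ι l := by
    intro u
    induction u using Finsupp.induction_linear with
    | zero => simp
    | add u v hu hv =>
      have : u + v - sec (push S (u + v)) = (u - sec (push S u)) + (v - sec (push S v)) := by
        rw [map_add, map_add]; abel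
      rw [this]
      exact AddSubgroup.add_mem _ hu hv
    | single p c =>
      have h1 : (QuotientAddGroup.mk p.1 : T ⧸ S) =
          QuotientAddGroup.mk (Quotient.out (QuotientAddGroup.mk p.1 : T ⧸ S)) :=
        (Quotient.out_eq _).symm
      rw [QuotientAddGroup.eq] at h1
      have h2 := Jl_stab l _ h1 (Finsupp.single p c)
      have h3 : sec (push S (Finsupp.single p c)) =
          shift (-p.1 + Quotient.out (QuotientAddGroup.mk p.1 : T ⧸ S)) (Finsupp.single p c) := by
        simp only [sec, push, shift, Finsupp.mapDomain.addMonoidHom_apply,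
          Finsupp.mapDomain_single]
        congr 1
        refine Prod.ext ?_ rfl
        simp only
        abel
      rw [h3]
      have h4 := AddSubgroup.neg_mem _ h2
      rwa [neg_sub] at h4
  have := key u
  rwa [h, map_zero, sub_zero] at this

/-- the congruence subgroups -/
def KW (ι : Type*) (K : AddSubgroup T) (m : ℤ) : Subgroup (W T ι) where
  carrier := {w | w.t ∈ K ∧ ∀ q, m ∣ push K w.m q}
  one_mem' := ⟨K.zero_mem, fun q => by simp [one_m]⟩
  mul_mem' := by
    rintro a b ⟨ha1, ha2⟩ ⟨hb1, hb2⟩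
    refine ⟨K.add_mem ha1 hb1, fun q => ?_⟩
    rw [mul_m, map_add, push_shift_mem K ha1, Finsupp.add_apply]
    exact dvd_add (ha2 q) (hb2 q)
  inv_mem' := by
    rintro a ⟨ha1, ha2⟩
    refine ⟨K.neg_mem ha1, fun q => ?_⟩
    rw [inv_m, map_neg, push_shift_mem K (K.neg_mem ha1), Finsupp.neg_apply]
    exact (dvd_neg).2 (ha2 q)

lemma mem_KW {K : AddSubgroup T} {m : ℤ} {w : W T ι} :
    w ∈ KW ι K m ↔ w.t ∈ K ∧ ∀ q, m ∣ push K w.m q := Iff.rfl

lemma KW_normal (K : AddSubgroup T) (m : ℤ) : (KW ι K m).Normal := by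
  refine ⟨fun w hw g => ?_⟩
  obtain ⟨h1, h2⟩ := mem_KW.1 hw
  refine mem_KW.2 ⟨by rw [conj_t]; exact h1, fun q => ?_⟩
  rw [conj_m, map_add, map_sub, push_shift_mem K h1, sub_self, add_zero]
  exact push_shift_dvd K _ _ _ h2 q

lemma KW_fi [Finite ι] (K : AddSubgroup T) [K.FiniteIndex] (m : ℕ) (hm : 0 < m) :
    (KW ι K (m : ℤ)).FiniteIndex := by
  classical
  haveI : NeZero m := ⟨hm.ne'⟩
  haveI : Finite (T ⧸ K) := AddSubgroup.finite_quotient_of_finiteIndex
  let f : W T ι → (T ⧸ K) × ((T ⧸ K) × ι → ZMod m) :=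
    fun w => (QuotientAddGroup.mk w.t, fun q => ((push K w.m q : ℤ) : ZMod m))
  have hf : ∀ w w' : W T ι, f w = f w' → w⁻¹ * w' ∈ KW ι K (m : ℤ) := by
    intro w w' h
    have h1 : (QuotientAddGroup.mk w.t : T ⧸ K) = QuotientAddGroup.mk w'.t :=
      congrArg Prod.fst h
    have h2 : (fun q => ((push K w.m q : ℤ) : ZMod m)) = fun q => ((push K w'.m q : ℤ) : ZMod m) :=
      congrArg Prod.snd h
    rw [QuotientAddGroup.eq] at h1
    refine mem_KW.2 ⟨h1, ?_⟩
    have h3 : (w⁻¹ * w').m = shift (-w.t) (w'.m - w.m) := by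
      rw [mul_m, inv_m, inv_t, map_sub]
      abel
    rw [h3]
    apply push_shift_dvd
    intro q
    have h4 := congrFun h2 q
    rw [map_sub, Finsupp.sub_apply]
    exact (ZMod.intCast_eq_intCast_iff_dvd_sub _ _ _).1 h4
  haveI : Finite (W T ι ⧸ KW ι K (m : ℤ)) := by
    refine Finite.of_injective (fun q : W T ι ⧸ KW ι K (m : ℤ) => f q.out) ?_
    intro a b hab
    have := hf _ _ hab
    have h5 : (QuotientGroup.mk a.out : W T ι ⧸ KW ι K (m : ℤ)) = QuotientGroup.mk b.out :=
      QuotientGroup.eq.2 this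
    rwa [QuotientGroup.out_eq', QuotientGroup.out_eq'] at h5
  exact Subgroup.finiteIndex_of_finite_quotient

/-- **P2.** -/
theorem pc_W [AddGroup.FG T] [Finite ι] : PC (W T ι) := by
  classical
  intro as x hx
  by_cases ht : x.t = (as.map W.t).sum
  · set S := AddSubgroup.closure {s | s ∈ as.map W.t} with hS
    have h1 : ¬ ∃ c ∈ comb (as.map W.m), push S (x.m - c) = 0 := by
      rintro ⟨c, hc, h⟩
      exact hx (sub_conjProd as x ht c hc (mem_Jl _ _ h))
    have h2 : ∃ K : AddSubgroup T, S ≤ K ∧ K.FiniteIndex ∧ ∃ m : ℕ, 0 < m ∧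
        ¬ ∃ c ∈ comb (as.map W.m), ∀ q, (m : ℤ) ∣ push K (x.m - c) q := by
      by_contra hcon
      push_neg at hcon
      refine h1 (separation S (as.map W.m) x.m ?_)
      intro K hK hfi m hm
      obtain ⟨c, hc, h⟩ := hcon K hK hfi m hm
      exact ⟨c, hc, h⟩
    obtain ⟨K, hSK, hfi, m, hm, hno⟩ := h2
    haveI := hfi
    refine ⟨KW ι K (m : ℤ), KW_normal K _, KW_fi K m hm, ?_⟩
    intro k hk hxk
    have hal : ∀ a ∈ as, a.t ∈ K := fun a ha =>
      hSK (AddSubgroup.subset_closure (List.mem_map.2 ⟨a, ha, rfl⟩))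
    obtain ⟨-, c, hc, h⟩ := conjProd_sub K as hal _ hxk
    have hxt : x.t ∈ K := by
      rw [ht]
      apply AddSubgroup.list_sum_mem
      intro y hy
      obtain ⟨a, ha, rfl⟩ := List.mem_map.1 hy
      exact hal a ha
    refine hno ⟨c, hc, fun q => ?_⟩
    rw [mul_m] at h
    have h3 : x.m + shift x.t k.m - c = (x.m - c) + shift x.t k.m := by abel
    rw [h3, map_add, push_shift_mem K hxt] at h
    have h4 : push K (x.m - c) = -push K k.m := eq_neg_of_add_eq_zero_left h
    rw [h4, Finsupp.neg_apply]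
    exact (dvd_neg).2 ((mem_KW.1 hk).2 q)
  · have h1 : x.t - (as.map W.t).sum ∉ (⊥ : AddSubgroup T) := by
      rw [AddSubgroup.mem_bot, sub_eq_zero]
      exact ht
    obtain ⟨n, hn⟩ := (Kn_sep (⊥ : AddSubgroup T) _ h1).exists
    haveI := Kn_fi (⊥ : AddSubgroup T) n
    refine ⟨KW ι (Kn ⊥ n) ((1 : ℕ) : ℤ), KW_normal _ _, KW_fi _ 1 one_pos, ?_⟩
    intro k hk hxk
    obtain ⟨h2, -⟩ := conjProd_sub (⊤ : AddSubgroup T) as (fun _ _ => AddSubgroup.mem_top _) _ hxk
    apply hn
    have h3 : x.t - (as.map W.t).sum = -k.t := by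
      rw [← h2, mul_t]
      abel
    rw [h3]
    exact AddSubgroup.neg_mem _ (mem_KW.1 hk).1

end

end Pool.Agent.H41Sep
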