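import Mathlib
import Pool.Agent.H41Sep.PC2
import Pool.Agent.H18PC.Cover

set_option autoImplicit false

namespace Pool.Agent.H41Sep
open Pool.Agent.H96MB Pool.Agent.H18PC

/-- **P4.** -/
theorem split_cover.{u} {H : Type u} [Group H] (A B : Subgroup H) [A.Normal]
    (hA : ∀ a ∈ A, ∀ b ∈ A, a * b = b * a) (hB : ∀ a ∈ B, ∀ b ∈ B, a * b = b * a)
    (hAB : ∀ h : H, ∃ a ∈ A, ∃ b ∈ B, h = a * b) :
    ∀ S : Finset H, ∃ (W : Type u) (_ : Group W) (p : W →* H),
      (∀ s ∈ S, s ∈ p.range) ∧ PC W := by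
  classical
  intro S
  letI : CommGroup A := { (inferInstance : Group A) with
    mul_comm := fun a b => Subtype.ext (hA a a.2 b b.2) }
  letI : CommGroup B := { (inferInstance : Group B) with
    mul_comm := fun a b => Subtype.ext (hB a a.2 b b.2) }
  choose fa hfa fb hfb hab using hAB
  let ι : Type u := ↥S
  let b : ι → B := fun x => ⟨fb x.1, hfb x.1⟩
  let a : ι → A := fun x => ⟨fa x.1, hfa x.1⟩
  let τ : (ι → ℤ) → B := fun n => ∏ x : ι, b x ^ n x
  have τ0 : τ 0 = 1 := by simp [τ]
  have τadd : ∀ s t, τ (s + t) = τ s * τ t := by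
    intro s t
    simp only [τ, Pi.add_apply, zpow_add, Finset.prod_mul_distrib]
  have τs : ∀ x : ι, τ (Pi.single x 1) = b x := by
    intro x
    simp only [τ]
    rw [Finset.prod_eq_single x]
    · simp
    · intro y _ hy
      rw [Pi.single_eq_of_ne hy, zpow_zero]
    · intro h
      exact absurd (Finset.mem_univ x) h
  let a' : (ι → ℤ) × ι → A := fun p => ⟨(τ p.1 : H) * (a p.2 : H) * (τ p.1 : H)⁻¹,
    Subgroup.Normal.conj_mem inferInstance _ (a p.2).2 _⟩
  let α : ((ι → ℤ) × ι →₀ ℤ) →+ Additive A :=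
    Finsupp.liftAddHom (fun p => zmultiplesHom (Additive A) (Additive.ofMul (a' p)))
  let β : ((ι → ℤ) × ι →₀ ℤ) → H := fun u => ((Additive.toMul (α u) : A) : H)
  have β0 : β 0 = 1 := by simp [β]
  have βadd : ∀ u v, β (u + v) = β u * β v := by
    intro u v
    simp only [β, map_add]
    rfl
  have βs : ∀ p c, β (Finsupp.single p c) = (τ p.1 : H) * (a p.2 : H) ^ c * (τ p.1 : H)⁻¹ := by
    intro p c
    have h1 : α (Finsupp.single p c) = c • Additive.ofMul (a' p) := by
      simp only [α]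
      rw [Finsupp.liftAddHom_apply_single]
      rfl
    have h2 : β (Finsupp.single p c) = ((a' p ^ c : A) : H) := by
      simp only [β, h1]
      rfl
    rw [h2, Subgroup.coe_zpow]
    simp only [a', conj_zpow]
  have βshift : ∀ s u, β (shift s u) = (τ s : H) * β u * (τ s : H)⁻¹ := by
    intro s u
    induction u using Finsupp.induction_linear with
    | zero => rw [map_zero, β0]; simp
    | add u v hu hv =>
      rw [map_add, βadd, hu, hv, βadd]
      group
    | single p c =>
      have h1 : shift s (Finsupp.single p c) = Finsupp.single (s + p.1, p.2) c := by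
        simp only [shift, Finsupp.mapDomain.addMonoidHom_apply, Finsupp.mapDomain_single]
      rw [h1, βs, βs]
      simp only [τadd, Subgroup.coe_mul]
      group
  let p : W (ι → ℤ) ι →* H :=
    { toFun := fun w => β w.m * (τ w.t : H)
      map_one' := by
        change β 0 * (τ 0 : H) = 1
        rw [β0, τ0]
        simp
      map_mul' := by
        intro w w'
        change β (w.m + shift w.t w'.m) * (τ (w.t + w'.t) : H) = _
        rw [βadd, βshift, τadd, Subgroup.coe_mul]
        group }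
  haveI : AddGroup.FG (ι → ℤ) := Module.Finite.iff_addGroup_fg.1 inferInstance
  refine ⟨W (ι → ℤ) ι, inferInstance, p, ?_, pc_W⟩
  intro s hs
  refine ⟨⟨Pi.single ⟨s, hs⟩ 1, Finsupp.single (0, ⟨s, hs⟩) 1⟩, ?_⟩
  change β (Finsupp.single (0, ⟨s, hs⟩) 1) * (τ (Pi.single ⟨s, hs⟩ 1) : H) = s
  rw [βs, τs, τ0, zpow_one]
  simp only [OneMemClass.coe_one, one_mul, inv_one, mul_one]
  exact (hab s).symm

/-- Every bi-invariant metric on `H = A B`, `A` abelian normal, `B` abelian. -/
theorem embeds_of_split.{u} {H : Type u} [Group H] {ρ : H → H → ℝ} (hρ : H71MU.BiMetric H ρ)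
    (A B : Subgroup H) [A.Normal]
    (hA : ∀ a ∈ A, ∀ b ∈ A, a * b = b * a) (hB : ∀ a ∈ B, ∀ b ∈ B, a * b = b * a)
    (hAB : ∀ h : H, ∃ a ∈ A, ∃ b ∈ B, h = a * b) :
    H71MU.EmbedsInFiniteUltraproduct H ρ :=
  embeds_of_cover hρ (split_cover A B hA hB hAB)

end Pool.Agent.H41Sep
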